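import Pool.Agent.GV.FIN.Defs
import Pool.Agent.GV.ALG.Final

/-!
# GV-FIN-Symm: consequences of the symmetry

`k = 4 a + 2 e`, `c = 2^(2a+e-1)` has slope `k/2 - 1 = 2a + e - 1`; `2 c²` has slope `k - 1`.

Plan.  `alg_final` with `K = PadicAlgCl 2`: `Ev + S1 = S2 + Q`.  The elements of `S1`, `S2` have slope
`2a + e - 1` (norm of `algebraMap ℚ K (2^j)`; `cst false a = 2^(2a) / 2`).  `0 ∉ Q`, and `0 ∉ Ev`
(an element of `Ev` is in `S2` or `Q`).  `slo (2c²/x) = (4a + 2e - 1) - slo x` for `x ≠ 0`.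
* `cnt_le`: for `t ≤ 2a + e - 1` the filter `slo < t` kills `S1`, `S2`, so `cnt = #{Q : slo < t}`, and by
  the symmetry `#{Q : slo < t} = #{Q : slo > 4a+2e-1-t}`; these two classes are disjoint since
  `t ≤ 2a + e - 1 < 4a + 2e - 1 - t`, so `2 cnt ≤ card Q = 2 dd`.
* `cnt_up`: for `0 < t ≤ 2a + e - 1`: `#{Ev : slo > 4a+2e-1-t} = #{Q : ...} = cnt t` (the elements of
  slope `2a + e - 1` are not counted as `4a+2e-1-t > 2a+e-1`).
* `mid`: `#{Ev : slo ≠ 2a+e-1} ≤ card Q = 2 dd e a`.
* `card_Ev`: the characteristic polynomial has degree `a - 1` and splits over `K`.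
-/

namespace Pool.Agent.GV

/-! ### norms of rational constants -/

private theorem symm_norm_rat (q : ℚ) :
    ‖algebraMap ℚ (PadicAlgCl 2) q‖ = ‖((q : ℚ) : ℚ_[2])‖ := by
  have h : algebraMap ℚ (PadicAlgCl 2) q = algebraMap ℚ_[2] (PadicAlgCl 2) ((q : ℚ) : ℚ_[2]) := by
    rw [eq_ratCast, map_ratCast]
  rw [h]
  exact PadicAlgCl.norm_extends 2 _

private theorem symm_slo_mul {x y : PadicAlgCl 2} (hx : x ≠ 0) (hy : y ≠ 0) :
    slo (x * y) = slo x + slo y := by
  unfold slo
  rw [norm_mul, Real.logb_mul (norm_ne_zero_iff.2 hx) (norm_ne_zero_iff.2 hy)]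
  ring

private theorem symm_slo_div {x y : PadicAlgCl 2} (hx : x ≠ 0) (hy : y ≠ 0) :
    slo (x / y) = slo x - slo y := by
  unfold slo
  rw [norm_div, Real.logb_div (norm_ne_zero_iff.2 hx) (norm_ne_zero_iff.2 hy)]
  ring

private theorem symm_slo_two : slo (algebraMap ℚ (PadicAlgCl 2) 2) = 1 := by
  unfold slo
  rw [symm_norm_rat]
  have h : ‖((2 : ℚ) : ℚ_[2])‖ = (2 : ℝ)⁻¹ := by
    have := @Padic.norm_p 2 _
    simpa using this
  rw [h, Real.logb_inv, Real.logb_self_eq_one (by norm_num)]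
  norm_num

private theorem symm_two_ne : algebraMap ℚ (PadicAlgCl 2) 2 ≠ 0 := by
  rw [Ne, map_eq_zero]
  norm_num

private theorem symm_slo_pow (n : ℕ) : slo (algebraMap ℚ (PadicAlgCl 2) (2 ^ n)) = n := by
  induction n with
  | zero =>
    unfold slo
    simp
  | succ n ih =>
    rw [pow_succ, map_mul, symm_slo_mul _ symm_two_ne, ih, symm_slo_two]
    · push_cast
      ring
    · rw [Ne, map_eq_zero]
      positivity

private theorem symm_cst_ne (e : Bool) (a : ℕ) : algebraMap ℚ (PadicAlgCl 2) (cst e a) ≠ 0 := by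
  rw [Ne, map_eq_zero]
  unfold cst
  cases e <;> simp

private theorem symm_slo_cst (e : Bool) (a : ℕ) :
    slo (algebraMap ℚ (PadicAlgCl 2) (cst e a)) = 2 * a + (e.toNat : ℝ) - 1 := by
  cases e
  · have h : cst false a = 2 ^ (2 * a) / 2 := by
      unfold cst
      simp only [cond_false]
      ring
    rw [h, map_div₀, symm_slo_div _ symm_two_ne, symm_slo_pow, symm_slo_two]
    · simp
    · rw [Ne, map_eq_zero]
      positivity
  · have h : cst true a = 2 ^ (2 * a) := by
      unfold cst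
      simp only [cond_true]
      ring
    rw [h, symm_slo_pow]
    simp

private theorem symm_slo_neg (x : PadicAlgCl 2) : slo (-x) = slo x := by
  unfold slo
  rw [norm_neg]

/-! ### the symmetric multiset -/

open Classical in
private theorem symm_main (e : Bool) (a : ℕ) (ha : 1 ≤ a) :
    ∃ Q : Multiset (PadicAlgCl 2), Multiset.card Q = 2 * dd e a ∧ (0 : PadicAlgCl 2) ∉ Q ∧
      (∀ (p : ℝ → Prop) [DecidablePred p], ¬ p (2 * a + (e.toNat : ℝ) - 1) →
        Multiset.card ((Ev e a).filter fun x => p (slo x)) =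
          Multiset.card (Q.filter fun x => p (slo x))) ∧
      (∀ t : ℝ, Multiset.card (Q.filter fun x => slo x < t) =
        Multiset.card (Q.filter fun x => 4 * a + 2 * (e.toNat : ℝ) - 1 - t < slo x)) := by
  obtain ⟨Q, S1, S2, h1, h2, h3, h4, h5, h6⟩ := alg_final (PadicAlgCl 2) e a ha
  refine ⟨Q, h2, h3, ?_, ?_⟩
  · intro p _ hp
    have hS : ∀ T : Multiset (PadicAlgCl 2),
        (∀ x ∈ T, x = algebraMap ℚ (PadicAlgCl 2) (cst e a) ∨
          x = -algebraMap ℚ (PadicAlgCl 2) (cst e a)) → T.filter (fun x => p (slo x)) = 0 := by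
      intro T hT
      rw [Multiset.filter_eq_nil]
      intro x hx
      have h7 : slo x = 2 * a + (e.toNat : ℝ) - 1 := by
        rcases hT x hx with rfl | rfl
        · exact symm_slo_cst e a
        · rw [symm_slo_neg]
          exact symm_slo_cst e a
      rw [h7]
      exact hp
    have h8 := congrArg (Multiset.filter fun x => p (slo x)) h1
    rw [Multiset.filter_add, Multiset.filter_add, hS S1 h5, hS S2 h6, add_zero, zero_add] at h8
    exact congrArg Multiset.card h8
  · intro t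
    conv_lhs => rw [← h4]
    rw [Multiset.filter_map, Multiset.card_map]
    congr 1
    refine Multiset.filter_congr fun x hx => ?_
    have hx0 : x ≠ 0 := fun h => h3 (h ▸ hx)
    have h7 : slo (algebraMap ℚ (PadicAlgCl 2) (2 * cst e a ^ 2) / x) =
        4 * a + 2 * (e.toNat : ℝ) - 1 - slo x := by
      rw [symm_slo_div _ hx0, map_mul, map_pow, sq, symm_slo_mul symm_two_ne, symm_slo_mul,
        symm_slo_two, symm_slo_cst]
      · ring
      · exact symm_cst_ne e a
      · exact symm_cst_ne e a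
      · exact mul_ne_zero (symm_cst_ne e a) (symm_cst_ne e a)
      · rw [map_mul, map_pow]
        exact mul_ne_zero symm_two_ne (pow_ne_zero 2 (symm_cst_ne e a))
    simp only [Function.comp_apply, h7]
    constructor <;> intro h <;> linarith

open Classical in
theorem card_Ev (e : Bool) (a : ℕ) : Multiset.card (Ev e a) = a - 1 := by
  unfold Ev
  rw [IsAlgClosed.card_roots_eq_natDegree, Polynomial.natDegree_map,
    Matrix.charpoly_natDegree_eq_dim, Fintype.card_fin]

theorem zero_notMem_Ev (e : Bool) (a : ℕ) (ha : 1 ≤ a) : (0 : PadicAlgCl 2) ∉ Ev e a := by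
  obtain ⟨Q, S1, S2, h1, -, h3, -, -, h6⟩ := alg_final (PadicAlgCl 2) e a ha
  intro h
  have h7 : (0 : PadicAlgCl 2) ∈ S2 + Q := by
    rw [← h1]
    exact Multiset.mem_add.2 (Or.inl h)
  rcases Multiset.mem_add.1 h7 with h8 | h8
  · rcases h6 0 h8 with h9 | h9
    · exact symm_cst_ne e a h9.symm
    · exact symm_cst_ne e a (neg_eq_zero.1 h9.symm)
  · exact h3 h8

theorem cnt_le (e : Bool) (a : ℕ) (ha : 1 ≤ a) (t : ℝ) (ht : t ≤ 2 * a + (e.toNat : ℝ) - 1) :
    cnt e a t ≤ dd e a := by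
  classical
  obtain ⟨Q, h1, -, h3, h4⟩ := symm_main e a ha
  have h5 : cnt e a t = Multiset.card (Q.filter fun x => slo x < t) :=
    h3 (fun y => y < t) (not_lt.2 ht)
  have h6 := congrArg Multiset.card (Multiset.filter_add_filter (fun x => slo x < t)
    (fun x => 4 * a + 2 * (e.toNat : ℝ) - 1 - t < slo x) Q)
  have h7 : Q.filter (fun x => slo x < t ∧ 4 * a + 2 * (e.toNat : ℝ) - 1 - t < slo x) = 0 := by
    rw [Multiset.filter_eq_nil]
    rintro x - ⟨h8, h9⟩
    linarith
  rw [Multiset.card_add, Multiset.card_add, h7, Multiset.card_zero, add_zero, ← h4 t, ← h5] at h6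
  have h8 := Multiset.card_le_card (Multiset.filter_le
    (fun x => slo x < t ∨ 4 * a + 2 * (e.toNat : ℝ) - 1 - t < slo x) Q)
  rw [← h6, h1] at h8
  omega

open Classical in
theorem cnt_up (e : Bool) (a : ℕ) (ha : 1 ≤ a) (t : ℝ) (ht : t ≤ 2 * a + (e.toNat : ℝ) - 1) :
    Multiset.card ((Ev e a).filter (fun x => 4 * a + 2 * (e.toNat : ℝ) - 1 - t < slo x)) =
      cnt e a t := by
  obtain ⟨Q, -, -, h3, h4⟩ := symm_main e a ha
  have h5 : cnt e a t = Multiset.card (Q.filter fun x => slo x < t) :=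
    h3 (fun y => y < t) (not_lt.2 ht)
  rw [h5, h4 t]
  refine h3 (fun y => 4 * a + 2 * (e.toNat : ℝ) - 1 - t < y) ?_
  rw [not_lt]
  linarith

open Classical in
theorem mid (e : Bool) (a : ℕ) (ha : 1 ≤ a) :
    Multiset.card ((Ev e a).filter (fun x => slo x ≠ 2 * a + (e.toNat : ℝ) - 1)) ≤
      2 * dd e a := by
  obtain ⟨Q, h1, -, h3, -⟩ := symm_main e a ha
  have h5 := h3 (fun y => y ≠ 2 * a + (e.toNat : ℝ) - 1) (fun h => h rfl)
  rw [← h1]
  exact h5.le.trans (Multiset.card_le_card (Multiset.filter_le _ Q))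

end Pool.Agent.GV
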