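import Pool.Agent.GV.FIN.Val
import Pool.Agent.GV.FIN.Symm
import Pool.Agent.GV.LA.Vertex

/-!
# GV-FIN-Count: the number of slopes `< t` is `t/4 + O(log a)` for `0 ≤ t ≤ 4a/3`

Let `C` be the constant of `val_exists`, `λ = Nat.log 2 a` (`≥ 1`).  From `vertex`: for a good
`(n, τ)`: `#{slo < τ} = n`, hence `cnt e a τ = n` (`2^(-τ) < ‖x‖ ↔ slo x < τ` for `x ≠ 0`).
`cnt` is monotone in `t`.
Upper bound: take `n0 = ⌈t/4⌉ + C λ`, so that `τ ≥ 4 n0 - C λ ≥ t` and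
`cnt t ≤ cnt τ = n ≤ n0 + C λ ≤ t/4 + O(λ)`, possible if `3 n0 + C λ ≤ a`; otherwise
`t ≥ 4a/3 - O(λ)` and `cnt t ≤ dd e a ≤ a/3 ≤ t/4 + O(λ)` (`cnt_le`; `t ≤ 4a/3 ≤ 2a + e - 1`).
Lower bound: if `t/4 ≥ 3 C λ + 1` take `n0 = ⌊t/4⌋ - 2 C λ`: `τ ≤ 4 (n0 + C λ) + C λ ≤ t`,
`cnt t ≥ cnt τ = n ≥ n0`; otherwise the bound is trivial.
-/

namespace Pool.Agent.GV

/-- for a good pair `(n, τ)` there are exactly `n` slopes `< τ` -/
theorem cnt_good (e : Bool) (a n : ℕ) (τ : ℤ) (ha : 1 ≤ a) (h : Good e a n τ) :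
    cnt e a (τ : ℝ) = n := by
  have hv := (vertex e a n τ h).1
  rw [cnt, ← hv]
  change Multiset.card _ = Multiset.card ((Ev e a).filter (fun x => (2 : ℝ) ^ (-τ) < ‖x‖))
  have hcongr : (Ev e a).filter (fun x => slo x < (τ : ℝ)) =
      (Ev e a).filter (fun x => (2 : ℝ) ^ (-τ) < ‖x‖) := by
    apply Multiset.filter_congr
    intro x hx
    have hx0 : x ≠ 0 := by
      rintro rfl
      exact zero_notMem_Ev e a ha hx
    have hpos : 0 < ‖x‖ := norm_pos_iff.mpr hx0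
    have h1 : slo x < (τ : ℝ) ↔ -(τ : ℝ) < Real.logb 2 ‖x‖ := by
      unfold slo
      constructor <;> intro hh <;> linarith
    rw [h1, Real.lt_logb_iff_rpow_lt (by norm_num) hpos]
    have h2 : (2 : ℝ) ^ (-(τ : ℝ)) = (2 : ℝ) ^ (-τ) := by
      rw [← Real.rpow_intCast]
      push_cast
      rfl
    rw [h2]
  rw [hcongr]

theorem cnt_mono (e : Bool) (a : ℕ) {s t : ℝ} (h : s ≤ t) : cnt e a s ≤ cnt e a t := by
  classical
  unfold cnt
  apply Multiset.card_le_card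
  apply Multiset.monotone_filter_right
  intro x hx
  exact lt_of_lt_of_le hx h

theorem dd_le (e : Bool) (a : ℕ) : 3 * dd e a ≤ a := by
  unfold dd
  cases e <;> simp <;> omega

theorem count : ∃ C : ℕ, ∀ (e : Bool) (a : ℕ) (t : ℝ), C ≤ a → 0 ≤ t → t ≤ 4 * (a : ℝ) / 3 →
    |(cnt e a t : ℝ) - t / 4| ≤ (C : ℝ) * Nat.log 2 a := by
  obtain ⟨C, hC⟩ := val_exists
  refine ⟨3 * C + 4, ?_⟩
  intro e a t ha ht0 ht
  have ha4 : 4 ≤ a := by omega
  have haC : C ≤ a := by omega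
  have hL : 1 ≤ Nat.log 2 a := by
    apply Nat.log_pos (by norm_num)
    omega
  set L : ℕ := Nat.log 2 a with hLdef
  have hLr : (1 : ℝ) ≤ (L : ℝ) := by exact_mod_cast hL
  have ha4r : (4 : ℝ) ≤ (a : ℝ) := by exact_mod_cast ha4
  have hCL : (0 : ℝ) ≤ (C : ℝ) * L := by positivity
  have hq : 0 ≤ t / 4 := by positivity
  rw [abs_le]
  constructor
  · -- lower bound
    by_cases hcase : 3 * ((C : ℝ) * L) + 1 ≤ t / 4
    · have hfl : 3 * (C * L) ≤ ⌊t / 4⌋₊ := by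
        apply Nat.le_floor
        push_cast
        linarith
      have hflr : ((⌊t / 4⌋₊ : ℕ) : ℝ) ≤ t / 4 := Nat.floor_le hq
      have hflr2 : t / 4 < ((⌊t / 4⌋₊ : ℕ) : ℝ) + 1 := Nat.lt_floor_add_one _
      obtain ⟨n0, hn0⟩ : ∃ n0 : ℕ, ⌊t / 4⌋₊ = n0 + 2 * (C * L) :=
        ⟨⌊t / 4⌋₊ - 2 * (C * L), by omega⟩
      have hn0r : ((⌊t / 4⌋₊ : ℕ) : ℝ) = (n0 : ℝ) + 2 * ((C : ℝ) * L) := by
        rw [hn0]; push_cast; ring
      have h1 : C * L ≤ n0 := by omega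
      have h2 : 3 * n0 + C * L ≤ a := by
        have : (3 * (n0 : ℝ) + (C : ℝ) * L) ≤ (a : ℝ) := by
          have h3 : (n0 : ℝ) ≤ t / 4 - 2 * ((C : ℝ) * L) := by linarith
          have h4 : t / 4 ≤ (a : ℝ) / 3 := by linarith
          linarith
        exact_mod_cast this
      obtain ⟨n, τ, hn1, hn2, hτ, hg⟩ := hC e a n0 haC h1 h2
      have hτr : |(τ : ℝ) - 4 * (n : ℝ)| ≤ (C : ℝ) * L := by exact_mod_cast hτ
      have hn1r : (n0 : ℝ) ≤ n := by exact_mod_cast hn1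
      have hn2r : (n : ℝ) ≤ n0 + (C : ℝ) * L := by exact_mod_cast hn2
      have hτt : (τ : ℝ) ≤ t := by
        have := (abs_le.mp hτr).2
        linarith
      have h5 : (n : ℝ) ≤ cnt e a t := by
        have := cnt_mono e a hτt
        rw [cnt_good e a n τ (by omega) hg] at this
        exact_mod_cast this
      push_cast
      nlinarith
    · push Not at hcase
      have h0 : (0 : ℝ) ≤ cnt e a t := Nat.cast_nonneg _
      push_cast
      nlinarith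
  · -- upper bound
    have hce : t / 4 ≤ ((⌈t / 4⌉₊ : ℕ) : ℝ) := Nat.le_ceil _
    have hce2 : ((⌈t / 4⌉₊ : ℕ) : ℝ) < t / 4 + 1 := Nat.ceil_lt_add_one hq
    by_cases hcase : 3 * (⌈t / 4⌉₊ + C * L) + C * L ≤ a
    · obtain ⟨n, τ, hn1, hn2, hτ, hg⟩ := hC e a (⌈t / 4⌉₊ + C * L) haC
        (Nat.le_add_left _ _) hcase
      have hτr : |(τ : ℝ) - 4 * (n : ℝ)| ≤ (C : ℝ) * L := by exact_mod_cast hτ
      have hn1r : ((⌈t / 4⌉₊ : ℕ) : ℝ) + (C : ℝ) * L ≤ n := by exact_mod_cast hn1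
      have hn2r : (n : ℝ) ≤ ((⌈t / 4⌉₊ : ℕ) : ℝ) + (C : ℝ) * L + (C : ℝ) * L := by
        exact_mod_cast hn2
      have hτt : t ≤ (τ : ℝ) := by
        have := (abs_le.mp hτr).1
        linarith
      have h5 : (cnt e a t : ℝ) ≤ n := by
        have := cnt_mono e a hτt
        rw [cnt_good e a n τ (by omega) hg] at this
        exact_mod_cast this
      push_cast
      nlinarith
    · push Not at hcase
      have hcaser : (a : ℝ) < 3 * (((⌈t / 4⌉₊ : ℕ) : ℝ) + (C : ℝ) * L) + (C : ℝ) * L := by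
        exact_mod_cast hcase
      have hdd : (cnt e a t : ℝ) ≤ dd e a := by
        have := cnt_le e a (by omega) t (by
          have : (0 : ℝ) ≤ (e.toNat : ℝ) := Nat.cast_nonneg _
          linarith)
        exact_mod_cast this
      have hdd2 : 3 * (dd e a : ℝ) ≤ a := by exact_mod_cast dd_le e a
      push_cast
      nlinarith

end Pool.Agent.GV
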