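import Pool.Agent.GV.LA.Defs

/-!
# GV-FIN definitions: eigenvalues and slopes

`Ev e a` is the multiset of eigenvalues of `U_2` on `S_k(Γ₀(2))`, `k = 4 a + 2 e`, in an algebraic
closure of `ℚ_2`; `slo x = - log_2 ‖x‖` the slope; `cnt e a t` the number of slopes `< t`.
-/

namespace Pool.Agent.GV

/-- the eigenvalues -/
noncomputable def Ev (e : Bool) (a : ℕ) : Multiset (PadicAlgCl 2) :=
  ((Mmat e a).charpoly.map (algebraMap ℚ (PadicAlgCl 2))).roots

/-- the slope of `x` -/
noncomputable def slo (x : PadicAlgCl 2) : ℝ := -Real.logb (2 : ℝ) ‖x‖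

open Classical in
/-- the number of slopes `< t` -/
noncomputable def cnt (e : Bool) (a : ℕ) (t : ℝ) : ℕ :=
  Multiset.card ((Ev e a).filter (fun x => slo x < t))

end Pool.Agent.GV
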