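import Mathlib

/-!
# GV-FIN-Weak: weak convergence from counting

Plan.  Write `N m = card (S m)`, `g = f`, `M` a large natural number, `θ_i = i / (3 M)`.
For `ε > 0`: `f` is uniformly continuous on `[0, 1]`; choose `M` with `|f x - f y| ≤ ε` for
`|x - y| ≤ 1/(3M)` on `[0,1]` and also near `1/2`.
Low pieces `[θ_i, θ_{i+1})`, `1 ≤ i ≤ M - 2`: the number of elements of `S m` in it, divided by `N m`,
tends to `θ_{i+1} - θ_i = 1/(3M)` (difference of two counts of `hlow`); similarly the high pieces
`(1 - θ_{i+1}, 1 - θ_i]`; the elements equal to `c m` are, divided by `N m`, at least `1/3 - ε` for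
large `m` (`hmid`).  These classes are disjoint for large `m` (`c m → 1/2`, `θ_{M-1} < 1/3`).  The
remaining elements are at most `N m (1 - 2 (M-2)/(3M) - 1/3 + 3 ε)` in number
(`= N m (4/(3M) + 3ε)`), and `|f| ≤ ‖f‖`.  On the pieces `|f x - f θ_i| ≤ ε`, and
`|∫_{θ_i}^{θ_{i+1}} f - f(θ_i)/(3M)| ≤ ε/(3M)`; `f (c m) → f (1/2)`, and the number of elements equal to
`c m` divided by `N m` is also at most `1/3 + 4/(3M) + 3ε` (since the other classes have
asymptotic mass `2 (M-2)/(3M)`).
Alternatively: use the Portmanteau theorem / convergence of distribution functions in Mathlib if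
convenient (`MeasureTheory.tendsto_of_forall_isOpen_le_liminf`...): the direct argument is short.
A further alternative: it suffices to treat `f ≥ 0`-type step approximations; the proof may be
split into private lemmas freely.
-/

namespace Pool.Agent.GV

open Filter Topology MeasureTheory

/-- sum of Dirac measures -/
private noncomputable def Weak_D (s : Multiset ℝ) : Measure ℝ :=
  (s.map fun x => (Measure.dirac x : Measure ℝ)).sum

private theorem Weak_D_cons (a : ℝ) (s : Multiset ℝ) :
    Weak_D (a ::ₘ s) = Measure.dirac a + Weak_D s := by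
  simp [Weak_D]

private theorem Weak_D_zero : Weak_D 0 = 0 := by simp [Weak_D]

private theorem Weak_D_apply (s : Multiset ℝ) (A : Set ℝ) (hA : MeasurableSet A)
    (p : ℝ → Prop) [DecidablePred p] (hp : ∀ x, p x ↔ x ∈ A) :
    Weak_D s A = ((Multiset.card (s.filter p) : ℕ) : ENNReal) := by
  induction s using Multiset.induction_on with
  | empty => simp [Weak_D_zero]
  | cons a s ih =>
    rw [Weak_D_cons, Measure.add_apply, ih, Measure.dirac_apply' a hA]
    by_cases h : p a
    · rw [Multiset.filter_cons_of_pos _ h, Multiset.card_cons, Set.indicator_of_mem ((hp a).1 h)]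
      push_cast
      rw [Pi.one_apply, add_comm]
    · rw [Multiset.filter_cons_of_neg _ h, Set.indicator_of_notMem (fun h' => h ((hp a).2 h')), zero_add]

private theorem Weak_D_univ (s : Multiset ℝ) :
    Weak_D s Set.univ = ((Multiset.card s : ℕ) : ENNReal) := by
  rw [Weak_D_apply s Set.univ MeasurableSet.univ (fun _ => True) (by simp)]
  simp

private instance Weak_fin (s : Multiset ℝ) : IsFiniteMeasure (Weak_D s) :=
  ⟨by rw [Weak_D_univ]; exact ENNReal.natCast_lt_top _⟩

private theorem Weak_D_integral (s : Multiset ℝ) (f : BoundedContinuousFunction ℝ ℝ) :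
    ∫ x, f x ∂(Weak_D s) = (s.map f).sum := by
  induction s using Multiset.induction_on with
  | empty => simp [Weak_D_zero]
  | cons a s ih =>
    rw [Weak_D_cons, integral_add_measure (f.integrable _) (f.integrable _), ih, integral_dirac,
      Multiset.map_cons, Multiset.sum_cons]

/-- the normalised measures -/
private noncomputable def Weak_P (s : Multiset ℝ) : ProbabilityMeasure ℝ :=
  if h : s = 0 then ⟨Measure.dirac 0, inferInstance⟩
  else ⟨((Multiset.card s : ℕ) : ENNReal)⁻¹ • Weak_D s, ⟨by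
    rw [Measure.smul_apply, Weak_D_univ, smul_eq_mul]
    exact ENNReal.inv_mul_cancel (by
      rw [Ne, Nat.cast_eq_zero, Multiset.card_eq_zero]
      exact h) (ENNReal.natCast_ne_top _)⟩⟩

private theorem Weak_P_coe (s : Multiset ℝ) (h : s ≠ 0) :
    (Weak_P s : Measure ℝ) = ((Multiset.card s : ℕ) : ENNReal)⁻¹ • Weak_D s := by
  have h1 : Weak_P s = ⟨((Multiset.card s : ℕ) : ENNReal)⁻¹ • Weak_D s, _⟩ := dif_neg h
  rw [h1]
  rfl

private theorem Weak_P_integral (s : Multiset ℝ) (h : s ≠ 0) (f : BoundedContinuousFunction ℝ ℝ) :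
    ∫ x, f x ∂(Weak_P s : Measure ℝ) = (s.map f).sum / (Multiset.card s : ℝ) := by
  rw [Weak_P_coe s h, integral_smul_measure, Weak_D_integral, ENNReal.toReal_inv,
    ENNReal.toReal_natCast, smul_eq_mul, div_eq_inv_mul]

private theorem Weak_P_real (s : Multiset ℝ) (h : s ≠ 0) (A : Set ℝ) (hA : MeasurableSet A)
    (p : ℝ → Prop) [DecidablePred p] (hp : ∀ x, p x ↔ x ∈ A) :
    (Weak_P s : Measure ℝ).real A = (Multiset.card (s.filter p) : ℝ) / (Multiset.card s : ℝ) := by
  rw [Weak_P_coe s h, measureReal_def, Measure.smul_apply, Weak_D_apply s A hA p hp, smul_eq_mul,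
    ENNReal.toReal_mul, ENNReal.toReal_inv, ENNReal.toReal_natCast, ENNReal.toReal_natCast,
    div_eq_inv_mul]

/-- the limit measure -/
private noncomputable def Weak_nu : Measure ℝ :=
  volume.restrict (Set.Ico 0 (1 / 3)) + volume.restrict (Set.Ico (2 / 3) 1) +
    (ENNReal.ofReal (1 / 3)) • Measure.dirac (1 / 2)

private instance Weak_nu_prob : IsProbabilityMeasure Weak_nu := by
  constructor
  unfold Weak_nu
  rw [Measure.add_apply, Measure.add_apply, Measure.smul_apply, Measure.restrict_apply_univ,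
    Measure.restrict_apply_univ, Real.volume_Ico, Real.volume_Ico, measure_univ, smul_eq_mul, mul_one,
    ← ENNReal.ofReal_add (by norm_num) (by norm_num), ← ENNReal.ofReal_add (by norm_num) (by norm_num)]
  norm_num

private theorem Weak_nu_integral (f : BoundedContinuousFunction ℝ ℝ) :
    ∫ x, f x ∂Weak_nu =
      (∫ x in (0 : ℝ)..(1 / 3), f x) + (∫ x in (2 / 3 : ℝ)..1, f x) + 1 / 3 * f (1 / 2) := by
  unfold Weak_nu
  have h1 : IsFiniteMeasure ((ENNReal.ofReal (1 / 3)) • (Measure.dirac (1 / 2) : Measure ℝ)) :=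
    Measure.smul_finite _ ENNReal.ofReal_ne_top
  rw [integral_add_measure ((f.integrable _).add_measure (f.integrable _)) (f.integrable _),
    integral_add_measure (f.integrable _) (f.integrable _), integral_smul_measure, integral_dirac,
    intervalIntegral.integral_of_le (by norm_num), intervalIntegral.integral_of_le (by norm_num),
    Measure.restrict_congr_set (μ := volume) Ico_ae_eq_Ioc,
    Measure.restrict_congr_set (μ := volume) Ico_ae_eq_Ioc, ENNReal.toReal_ofReal (by norm_num), smul_eq_mul]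

private noncomputable def Weak_F (t : ℝ) : ℝ :=
  max (min (1 / 3) t) 0 + max (min 1 t - 2 / 3) 0 + (if 1 / 2 < t then 1 / 3 else 0)

private theorem Weak_nu_real (t : ℝ) : Weak_nu.real (Set.Iio t) = Weak_F t := by
  unfold Weak_nu
  have h1 : IsFiniteMeasure ((ENNReal.ofReal (1 / 3)) • (Measure.dirac (1 / 2) : Measure ℝ)) :=
    Measure.smul_finite _ ENNReal.ofReal_ne_top
  rw [measureReal_add_apply, measureReal_add_apply, measureReal_def, measureReal_def, measureReal_def,
    Measure.restrict_apply measurableSet_Iio, Measure.restrict_apply measurableSet_Iio,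
    Set.inter_comm, Set.Ico_inter_Iio, Set.inter_comm, Set.Ico_inter_Iio, Real.volume_Ico, Real.volume_Ico,
    ENNReal.toReal_ofReal', ENNReal.toReal_ofReal', Measure.smul_apply,
    Measure.dirac_apply' _ measurableSet_Iio, sub_zero]
  unfold Weak_F
  congr 1
  by_cases h : (1 / 2 : ℝ) < t
  · rw [if_pos h, Set.indicator_of_mem (Set.mem_Iio.2 h), Pi.one_apply, smul_eq_mul, mul_one,
      ENNReal.toReal_ofReal (by norm_num)]
  · rw [if_neg h, Set.indicator_of_notMem (by simpa using h), smul_zero, ENNReal.toReal_zero]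

private theorem Weak_card_le (s : Multiset ℝ) (p q : ℝ → Prop) [DecidablePred p] [DecidablePred q]
    (h : ∀ x, p x → q x) : Multiset.card (s.filter p) ≤ Multiset.card (s.filter q) :=
  Multiset.card_le_card (Multiset.monotone_filter_right s fun x hx => h x hx)

private theorem Weak_card_add (s : Multiset ℝ) (p q r : ℝ → Prop) [DecidablePred p] [DecidablePred q]
    [DecidablePred r] (h1 : ∀ x, p x → ¬ q x) (h2 : ∀ x, p x → r x) (h3 : ∀ x, q x → r x) :
    Multiset.card (s.filter p) + Multiset.card (s.filter q) ≤ Multiset.card (s.filter r) := by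
  have h4 := Multiset.filter_add_filter p q s
  have h5 : s.filter (fun a => p a ∧ q a) = 0 := by
    rw [Multiset.filter_eq_nil]
    rintro a _ ⟨h6, h7⟩
    exact h1 a h6 h7
  rw [h5, add_zero] at h4
  rw [← Multiset.card_add, h4]
  exact Weak_card_le s _ _ fun x hx => hx.elim (h2 x) (h3 x)

private theorem Weak_card_compl (s : Multiset ℝ) (t : ℝ) :
    Multiset.card (s.filter fun x => x < t) + Multiset.card (s.filter fun x => t ≤ x) =
      Multiset.card s := by
  have h4 := Multiset.filter_add_not (fun x => x < t) s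
  have h5 : s.filter (fun a => ¬ a < t) = s.filter (fun x => t ≤ x) :=
    Multiset.filter_congr fun x _ => not_lt
  rw [h5] at h4
  rw [← Multiset.card_add, h4]

section

variable (S : ℕ → Multiset ℝ) (c : ℕ → ℝ)

/-- distribution function -/
private noncomputable def Weak_C (m : ℕ) (t : ℝ) : ℝ :=
  (Multiset.card ((S m).filter (fun x => x < t)) : ℝ) / (Multiset.card (S m) : ℝ)

private noncomputable def Weak_V (m : ℕ) (θ : ℝ) : ℝ :=
  (Multiset.card ((S m).filter (fun x => 1 - θ < x)) : ℝ) / (Multiset.card (S m) : ℝ)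

private theorem Weak_C_mono {m : ℕ} {t t' : ℝ} (h : t ≤ t') : Weak_C S m t ≤ Weak_C S m t' := by
  unfold Weak_C
  apply div_le_div_of_nonneg_right _ (Nat.cast_nonneg _)
  exact_mod_cast Weak_card_le (S m) _ _ fun x hx => lt_of_lt_of_le hx h

private theorem Weak_C_nonneg (m : ℕ) (t : ℝ) : 0 ≤ Weak_C S m t := by
  unfold Weak_C
  positivity

private theorem Weak_C_le_one (m : ℕ) (t : ℝ) : Weak_C S m t ≤ 1 := by
  unfold Weak_C
  apply div_le_one_of_le₀ _ (Nat.cast_nonneg _)
  exact_mod_cast Multiset.card_le_card (Multiset.filter_le _ _)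

/-- `t ≤ 1 - θ` -/
private theorem Weak_up {m : ℕ} (hm : 0 < Multiset.card (S m)) {t θ : ℝ} (h : t ≤ 1 - θ) :
    Weak_C S m t + Weak_V S m θ ≤ 1 := by
  have hN : (0 : ℝ) < (Multiset.card (S m) : ℝ) := by exact_mod_cast hm
  unfold Weak_C Weak_V
  rw [← add_div, div_le_one hN]
  have h1 := Weak_card_add (S m) (fun x => x < t) (fun x => 1 - θ < x) (fun _ => True)
    (fun x hx hx' => by linarith) (fun _ _ => trivial) (fun _ _ => trivial)
  rw [Multiset.filter_true] at h1
  exact_mod_cast h1

/-- `1 - θ < t` -/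
private theorem Weak_lo {m : ℕ} (hm : 0 < Multiset.card (S m)) {t θ : ℝ} (h : 1 - θ < t) :
    1 ≤ Weak_C S m t + Weak_V S m θ := by
  have hN : (0 : ℝ) < (Multiset.card (S m) : ℝ) := by exact_mod_cast hm
  unfold Weak_C Weak_V
  rw [← add_div, one_le_div hN]
  have h1 := Weak_card_compl (S m) t
  have h2 := Weak_card_le (S m) (fun x => t ≤ x) (fun x => 1 - θ < x) fun x hx => lt_of_lt_of_le h hx
  have h3 : Multiset.card (S m) ≤ Multiset.card ((S m).filter fun x => x < t) +
      Multiset.card ((S m).filter fun x => 1 - θ < x) := by omega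
  exact_mod_cast h3

/-- below the middle -/
private theorem Weak_mid_up {m : ℕ} (hm : 0 < Multiset.card (S m)) {t θ ε : ℝ} (h : t ≤ c m)
    (h' : c m ≤ 1 - θ)
    (hmid : (Multiset.card ((S m).filter (fun x => x ≠ c m)) : ℝ) ≤
        (2 / 3 + ε) * (Multiset.card (S m) : ℝ)) :
    Weak_C S m t + Weak_V S m θ ≤ 2 / 3 + ε := by
  have hN : (0 : ℝ) < (Multiset.card (S m) : ℝ) := by exact_mod_cast hm
  unfold Weak_C Weak_V
  rw [← add_div, div_le_iff₀ hN]
  refine le_trans ?_ hmid
  exact_mod_cast Weak_card_add (S m) (fun x => x < t) (fun x => 1 - θ < x) (fun x => x ≠ c m)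
    (fun x hx hx' => by linarith) (fun x hx => (lt_of_lt_of_le hx h).ne)
    (fun x hx => (lt_of_le_of_lt h' hx).ne')

/-- above the middle -/
private theorem Weak_mid_lo {m : ℕ} (hm : 0 < Multiset.card (S m)) {t θ ε : ℝ} (h : c m < t)
    (h' : θ ≤ c m)
    (hmid : (Multiset.card ((S m).filter (fun x => x ≠ c m)) : ℝ) ≤
        (2 / 3 + ε) * (Multiset.card (S m) : ℝ)) :
    1 / 3 - ε + Weak_C S m θ ≤ Weak_C S m t := by
  have hN : (0 : ℝ) < (Multiset.card (S m) : ℝ) := by exact_mod_cast hm
  have h1 := Weak_card_add (S m) (fun x => x < θ) (fun x => t ≤ x) (fun x => x ≠ c m)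
    (fun x hx hx' => by linarith) (fun x hx => (lt_of_lt_of_le hx h').ne)
    (fun x hx => (lt_of_lt_of_le h hx).ne')
  have h2 := Weak_card_compl (S m) t
  have h3 : (Multiset.card ((S m).filter fun x => x < θ) : ℝ) +
      (Multiset.card ((S m).filter fun x => t ≤ x) : ℝ) ≤
      (Multiset.card ((S m).filter (fun x => x ≠ c m)) : ℝ) := by exact_mod_cast h1
  have h4 : (Multiset.card ((S m).filter fun x => x < t) : ℝ) +
      (Multiset.card ((S m).filter fun x => t ≤ x) : ℝ) = (Multiset.card (S m) : ℝ) := by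
    exact_mod_cast h2
  have h5 : (1 / 3 - ε) * (Multiset.card (S m) : ℝ) +
      (Multiset.card ((S m).filter fun x => x < θ) : ℝ) ≤
      (Multiset.card ((S m).filter fun x => x < t) : ℝ) := by nlinarith
  unfold Weak_C
  rw [← sub_nonneg]
  have h6 : (Multiset.card ((S m).filter fun x => x < t) : ℝ) / (Multiset.card (S m) : ℝ) -
      (1 / 3 - ε + (Multiset.card ((S m).filter fun x => x < θ) : ℝ) / (Multiset.card (S m) : ℝ)) =
      ((Multiset.card ((S m).filter fun x => x < t) : ℝ) - ((1 / 3 - ε) * (Multiset.card (S m) : ℝ) +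
      (Multiset.card ((S m).filter fun x => x < θ) : ℝ))) / (Multiset.card (S m) : ℝ) := by
    field_simp
  rw [h6]
  exact div_nonneg (by linarith) hN.le

private theorem Weak_tendsto
    (hN : ∀ᶠ m in atTop, 0 < Multiset.card (S m))
    (hlow : ∀ θ : ℝ, 0 < θ → θ < 1 / 3 → Tendsto (fun m => Weak_C S m θ) atTop (𝓝 θ))
    (hup : ∀ θ : ℝ, 0 < θ → θ < 1 / 3 → Tendsto (fun m => Weak_V S m θ) atTop (𝓝 θ))
    (hc : Tendsto c atTop (𝓝 (1 / 2)))
    (hmid : ∀ ε : ℝ, 0 < ε → ∀ᶠ m in atTop,
      (Multiset.card ((S m).filter (fun x => x ≠ c m)) : ℝ) ≤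
        (2 / 3 + ε) * (Multiset.card (S m) : ℝ)) (t : ℝ) (ht : t ≠ 1 / 2) :
    Tendsto (fun m => Weak_C S m t) atTop (𝓝 (Weak_F t)) := by
  rcases le_or_gt t 0 with h0 | h0
  · have hF : Weak_F t = 0 := by
      unfold Weak_F
      rw [min_eq_right (by linarith), max_eq_right h0, min_eq_right (by linarith),
        max_eq_right (by linarith), if_neg (by linarith)]
      norm_num
    rw [hF]
    refine tendsto_order.2 ⟨fun a ha => Eventually.of_forall fun m => lt_of_lt_of_le ha (Weak_C_nonneg S m t),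
      fun b hb => ?_⟩
    obtain ⟨θ, h1, h2⟩ := exists_between (show (0 : ℝ) < min b (1 / 3) from lt_min hb (by norm_num))
    filter_upwards [(hlow θ h1 (lt_of_lt_of_le h2 (min_le_right _ _))).eventually
      (gt_mem_nhds (lt_of_lt_of_le h2 (min_le_left _ _)))] with m hm
    exact lt_of_le_of_lt (Weak_C_mono S (by linarith)) hm
  rcases lt_or_ge t (1 / 3) with h1 | h1
  · have hF : Weak_F t = t := by
      unfold Weak_F
      rw [min_eq_right (by linarith), max_eq_left h0.le, min_eq_right (by linarith),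
        max_eq_right (by linarith), if_neg (by linarith)]
      ring
    rw [hF]
    exact hlow t h0 h1
  rcases lt_or_ge t (1 / 2) with h2 | h2
  · have hF : Weak_F t = 1 / 3 := by
      unfold Weak_F
      rw [min_eq_left (by linarith), max_eq_left (by norm_num), min_eq_right (by linarith),
        max_eq_right (by linarith), if_neg (by linarith)]
      ring
    rw [hF]
    refine tendsto_order.2 ⟨fun a ha => ?_, fun b hb => ?_⟩
    · obtain ⟨θ, h3, h4⟩ := exists_between (show max a 0 < (1 / 3 : ℝ) from max_lt ha (by norm_num))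
      filter_upwards [(hlow θ (lt_of_le_of_lt (le_max_right _ _) h3) h4).eventually
        (lt_mem_nhds (lt_of_le_of_lt (le_max_left _ _) h3))] with m hm
      exact lt_of_lt_of_le hm (Weak_C_mono S (by linarith))
    · obtain ⟨ε, hε, hεb⟩ : ∃ ε : ℝ, 0 < ε ∧ 1 / 3 + 3 * ε < b := ⟨(b - 1 / 3) / 6, by linarith, by linarith⟩
      obtain ⟨θ, h3, h4⟩ := exists_between (show max (1 / 3 - ε) 0 < (1 / 3 : ℝ) from
        max_lt (by linarith) (by norm_num))
      have h5 : 1 / 3 - ε < θ := lt_of_le_of_lt (le_max_left _ _) h3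
      have h6 : 0 < θ := lt_of_le_of_lt (le_max_right _ _) h3
      filter_upwards [(hup θ h6 h4).eventually (lt_mem_nhds h5), hmid ε hε, hN,
        hc.eventually (lt_mem_nhds h2), hc.eventually (gt_mem_nhds (show (1 / 2 : ℝ) < 2 / 3 by norm_num))]
        with m a1 a2 a3 a4 a5
      have := Weak_mid_up S c a3 (t := t) (θ := θ) a4.le (by linarith) a2
      linarith
  have h2' : 1 / 2 < t := lt_of_le_of_ne h2 (Ne.symm ht)
  rcases le_or_gt t (2 / 3) with h3 | h3
  · have hF : Weak_F t = 2 / 3 := by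
      unfold Weak_F
      rw [min_eq_left (by linarith), max_eq_left (by norm_num), min_eq_right (by linarith),
        max_eq_right (by linarith), if_pos h2']
      ring
    rw [hF]
    refine tendsto_order.2 ⟨fun a ha => ?_, fun b hb => ?_⟩
    · obtain ⟨ε, hε, hεb⟩ : ∃ ε : ℝ, 0 < ε ∧ a < 2 / 3 - 3 * ε := ⟨(2 / 3 - a) / 6, by linarith, by linarith⟩
      obtain ⟨θ, h4, h5⟩ := exists_between (show max (1 / 3 - ε) 0 < (1 / 3 : ℝ) from
        max_lt (by linarith) (by norm_num))
      have h6 : 1 / 3 - ε < θ := lt_of_le_of_lt (le_max_left _ _) h4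
      have h7 : 0 < θ := lt_of_le_of_lt (le_max_right _ _) h4
      filter_upwards [(hlow θ h7 h5).eventually (lt_mem_nhds h6), hmid ε hε, hN,
        hc.eventually (gt_mem_nhds h2'), hc.eventually (lt_mem_nhds (show (1 / 3 : ℝ) < 1 / 2 by norm_num))]
        with m a1 a2 a3 a4 a5
      have := Weak_mid_lo S c a3 (t := t) (θ := θ) a4 (by linarith) a2
      linarith
    · obtain ⟨ε, hε, hεb⟩ : ∃ ε : ℝ, 0 < ε ∧ 2 / 3 + 3 * ε < b := ⟨(b - 2 / 3) / 6, by linarith, by linarith⟩
      obtain ⟨θ, h4, h5⟩ := exists_between (show max (1 / 3 - ε) 0 < (1 / 3 : ℝ) from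
        max_lt (by linarith) (by norm_num))
      have h6 : 1 / 3 - ε < θ := lt_of_le_of_lt (le_max_left _ _) h4
      have h7 : 0 < θ := lt_of_le_of_lt (le_max_right _ _) h4
      filter_upwards [(hup θ h7 h5).eventually (lt_mem_nhds h6), hN] with m a1 a3
      have := Weak_up S a3 (t := t) (θ := θ) (by linarith)
      linarith
  rcases lt_or_ge t 1 with h4 | h4
  · have hF : Weak_F t = t := by
      unfold Weak_F
      rw [min_eq_left (by linarith), max_eq_left (by norm_num), min_eq_right (by linarith),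
        max_eq_left (by linarith), if_pos h2']
      ring
    rw [hF]
    refine tendsto_order.2 ⟨fun a ha => ?_, fun b hb => ?_⟩
    · obtain ⟨θ, h5, h6⟩ := exists_between (show 1 - t < min (1 / 3) (1 - a) from
        lt_min (by linarith) (by linarith))
      have h7 : θ < 1 / 3 := lt_of_lt_of_le h6 (min_le_left _ _)
      have h8 : θ < 1 - a := lt_of_lt_of_le h6 (min_le_right _ _)
      filter_upwards [(hup θ (by linarith) h7).eventually (gt_mem_nhds h8), hN] with m a1 a3
      have := Weak_lo S a3 (t := t) (θ := θ) (by linarith)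
      linarith
    · filter_upwards [(hup (1 - t) (by linarith) (by linarith)).eventually
        (lt_mem_nhds (show 1 - b < 1 - t by linarith)), hN] with m a1 a3
      have := Weak_up S a3 (t := t) (θ := 1 - t) (by linarith)
      linarith
  · have hF : Weak_F t = 1 := by
      unfold Weak_F
      rw [min_eq_left (by linarith), max_eq_left (by norm_num), min_eq_left (by linarith),
        max_eq_left (by linarith), if_pos h2']
      ring
    rw [hF]
    refine tendsto_order.2 ⟨fun a ha => ?_, fun b hb => ?_⟩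
    · obtain ⟨θ, h5, h6⟩ := exists_between (show (0 : ℝ) < min (1 / 3) (1 - a) from
        lt_min (by norm_num) (by linarith))
      have h7 : θ < 1 / 3 := lt_of_lt_of_le h6 (min_le_left _ _)
      have h8 : θ < 1 - a := lt_of_lt_of_le h6 (min_le_right _ _)
      filter_upwards [(hup θ h5 h7).eventually (gt_mem_nhds h8), hN] with m a1 a3
      have := Weak_lo S a3 (t := t) (θ := θ) (by linarith)
      linarith
    · exact Eventually.of_forall fun m => lt_of_le_of_lt (Weak_C_le_one S m t) hb

end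

theorem weak (S : ℕ → Multiset ℝ) (c : ℕ → ℝ)
    (hN : Tendsto (fun m => (Multiset.card (S m) : ℝ)) atTop atTop)
    (hlow : ∀ θ : ℝ, 0 < θ → θ < 1 / 3 → Tendsto (fun m =>
      (Multiset.card ((S m).filter (fun x => x < θ)) : ℝ) / (Multiset.card (S m) : ℝ))
      atTop (𝓝 θ))
    (hup : ∀ θ : ℝ, 0 < θ → θ < 1 / 3 → Tendsto (fun m =>
      (Multiset.card ((S m).filter (fun x => 1 - θ < x)) : ℝ) / (Multiset.card (S m) : ℝ))
      atTop (𝓝 θ))
    (hc : Tendsto c atTop (𝓝 (1 / 2)))
    (hmid : ∀ ε : ℝ, 0 < ε → ∀ᶠ m in atTop,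
      (Multiset.card ((S m).filter (fun x => x ≠ c m)) : ℝ) ≤
        (2 / 3 + ε) * (Multiset.card (S m) : ℝ))
    (f : BoundedContinuousFunction ℝ ℝ) :
    Tendsto (fun m => ((S m).map f).sum / (Multiset.card (S m) : ℝ)) atTop
      (𝓝 ((∫ x in (0 : ℝ)..(1 / 3), f x) + (∫ x in (2 / 3 : ℝ)..1, f x) + 1 / 3 * f (1 / 2))) := by
  have hN' : ∀ᶠ m in atTop, 0 < Multiset.card (S m) := by
    filter_upwards [hN.eventually_gt_atTop 0] with m hm
    exact_mod_cast hm
  have hN0 : ∀ᶠ m in atTop, S m ≠ 0 := by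
    filter_upwards [hN'] with m hm h
    rw [h] at hm
    simp at hm
  have hT := Weak_tendsto S c hN' hlow hup hc hmid
  -- convergence of the measures of the half lines
  have hreal : ∀ t : ℝ, t ≠ 1 / 2 → Tendsto (fun m => (Weak_P (S m) : Measure ℝ).real (Set.Iio t)) atTop
      (𝓝 (Weak_nu.real (Set.Iio t))) := by
    intro t ht
    rw [Weak_nu_real]
    refine (hT t ht).congr' ?_
    filter_upwards [hN0] with m hm
    rw [Weak_P_real (S m) hm (Set.Iio t) measurableSet_Iio (fun x => x < t) (fun x => Iff.rfl)]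
    rfl
  let ν : ProbabilityMeasure ℝ := ⟨Weak_nu, Weak_nu_prob⟩
  have hconv : Tendsto (fun m => Weak_P (S m)) atTop (𝓝 ν) := by
    refine IsPiSystem.tendsto_probabilityMeasure_of_tendsto_of_mem
      (S := {s | ∃ a b : ℝ, a ≠ 1 / 2 ∧ b ≠ 1 / 2 ∧ s = Set.Ico a b}) ?_ ?_ ?_ ?_
    · rintro _ ⟨a, b, ha, hb, rfl⟩ _ ⟨a', b', ha', hb', rfl⟩ _
      refine ⟨max a a', min b b', ?_, ?_, Set.Ico_inter_Ico⟩
      · rcases max_choice a a' with h | h <;> rw [h] <;> assumption
      · rcases min_choice b b' with h | h <;> rw [h] <;> assumption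
    · rintro _ ⟨a, b, ha, hb, rfl⟩
      exact measurableSet_Ico
    · intro u hu x hx
      obtain ⟨ε, hε, hsub⟩ := Metric.isOpen_iff.1 hu x hx
      obtain ⟨a, ha1, ha2⟩ : ∃ a, a ∈ Set.Ioo (x - ε) x ∧ a ≠ 1 / 2 := by
        rcases eq_or_ne (x - ε / 2) (1 / 2) with h | h
        · exact ⟨x - ε / 4, ⟨by linarith, by linarith⟩, fun h' => by linarith⟩
        · exact ⟨x - ε / 2, ⟨by linarith, by linarith⟩, h⟩
      obtain ⟨b, hb1, hb2⟩ : ∃ b, b ∈ Set.Ioo x (x + ε) ∧ b ≠ 1 / 2 := by
        rcases eq_or_ne (x + ε / 2) (1 / 2) with h | h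
        · exact ⟨x + ε / 4, ⟨by linarith, by linarith⟩, fun h' => by linarith⟩
        · exact ⟨x + ε / 2, ⟨by linarith, by linarith⟩, h⟩
      refine ⟨Set.Ico a b, ⟨a, b, ha2, hb2, rfl⟩, Ico_mem_nhds ha1.2 hb1.1, fun y hy => hsub ?_⟩
      rw [Metric.mem_ball, Real.dist_eq, abs_lt]
      constructor
      · linarith [hy.1, ha1.1]
      · linarith [hy.2, hb1.2]
    · rintro _ ⟨a, b, ha, hb, rfl⟩
      have key : ∀ μ : ProbabilityMeasure ℝ, a ≤ b → ((μ (Set.Ico a b) : NNReal) : ℝ) =
          (μ : Measure ℝ).real (Set.Iio b) - (μ : Measure ℝ).real (Set.Iio a) := by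
        intro μ hab
        have h1 : Set.Ico a b = Set.Iio b \ Set.Iio a := by
          ext x
          simp only [Set.mem_Ico, Set.mem_sdiff, Set.mem_Iio, not_lt]
          tauto
        rw [← measureReal_sdiff (Set.Iio_subset_Iio hab) measurableSet_Iio, ← h1]
        rfl
      rcases le_or_gt a b with hab | hab
      · have h2 : Tendsto (fun m => ((Weak_P (S m) (Set.Ico a b) : NNReal) : ℝ)) atTop
            (𝓝 ((ν (Set.Ico a b) : NNReal) : ℝ)) := by
          simp_rw [key _ hab]
          exact (hreal b hb).sub (hreal a ha)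
        exact NNReal.tendsto_coe.1 h2
      · rw [Set.Ico_eq_empty (by linarith)]
        simp
  have h3 := ProbabilityMeasure.tendsto_iff_forall_integral_tendsto.1 hconv f
  have h4 : ∫ x, f x ∂(ν : Measure ℝ) = _ := Weak_nu_integral f
  rw [h4] at h3
  refine h3.congr' ?_
  filter_upwards [hN0] with m hm
  exact Weak_P_integral (S m) hm f

end Pool.Agent.GV
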