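import Pool.Agent.GV.FIN.Count
import Pool.Agent.GV.FIN.Weak
import Pool.Agent.GV.MF.PP

/-!
# GV-FIN-Main: Gouvea's conjecture for `(p, N) = (2, 1)`

Plan.  For `m ≥ 1` write `2 m = 4 a + 2 e` with `a = m / 2`, `e = (m odd)`.  By `MF.P_eq` (transport
along `2 * m = 4 a + 2 e.toNat`: `subst`/`obtain`), `P (2m) = (Mmat e a).charpoly` and the finrank is
`a - 1 = card (Ev e a)`.  Apply `weak` to `S m = (Ev e a).map (fun x => slo x / (2m - 1))`,
`c m = (m - 1)/(2m - 1)` (`k/2 - 1 = 2a + e - 1 = m - 1`, `k - 1 = 2m - 1 = 4a + 2e - 1`).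
`hlow`: `card (filter (slo x/(2m-1) < θ)) = cnt e a (θ (2m - 1))`, by `count` it is
`θ (2m-1)/4 + O(log a)`, and `(2m - 1)/(4 (a-1)) → 1`, `log a / (a - 1) → 0`.
`hup`: `cnt_up` with `t = θ (2m-1)`.  `hmid`: `mid`, `2 dd e a ≤ 2a/3`.
-/

open scoped MatrixGroups

namespace Pool.Agent.GV

theorem gouvea_two_one
    (T : ∀ k : ℕ, Module.End ℂ
        (CuspForm ((CongruenceSubgroup.Gamma0 2 : Subgroup SL(2, ℤ)) :
          Subgroup (GL (Fin 2) ℝ)) (k : ℤ)))
    (P : ℕ → Polynomial ℚ)
    (hT : ∀ (k : ℕ) (f : CuspForm ((CongruenceSubgroup.Gamma0 2 : Subgroup SL(2, ℤ)) :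
          Subgroup (GL (Fin 2) ℝ)) (k : ℤ)) (z : UpperHalfPlane),
        (T k f : UpperHalfPlane → ℂ) z =
          (1 / ((2 : ℕ) : ℂ)) * ∑ j ∈ Finset.range 2,
            (f : UpperHalfPlane → ℂ) (UpperHalfPlane.ofComplex (((z : ℂ) + (j : ℂ)) / ((2 : ℕ) : ℂ))))
    (hP : ∀ k : ℕ, (P k).Monic ∧
        (P k).natDegree = Module.finrank ℂ
          (CuspForm ((CongruenceSubgroup.Gamma0 2 : Subgroup SL(2, ℤ)) :
            Subgroup (GL (Fin 2) ℝ)) (k : ℤ)) ∧
        ∀ μ : ℂ, ((P k).map (algebraMap ℚ ℂ)).rootMultiplicity μ =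
          Module.finrank ℂ (Module.End.maxGenEigenspace (T k) μ))
    (f : BoundedContinuousFunction ℝ ℝ) :
      Filter.Tendsto
        (fun m : ℕ =>
          (((P (2 * m)).map (algebraMap ℚ (PadicAlgCl 2))).roots.map
              (fun x => f (-Real.logb ((2 : ℕ) : ℝ) ‖x‖ / ((2 * (m : ℝ)) - 1)))).sum /
            (Module.finrank ℂ
              (CuspForm ((CongruenceSubgroup.Gamma0 2 : Subgroup SL(2, ℤ)) :
                Subgroup (GL (Fin 2) ℝ)) ((2 * m : ℕ) : ℤ)) : ℝ))
        Filter.atTop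
        (nhds ((∫ x in (0 : ℝ)..(1 / (((2 : ℕ) : ℝ) + 1)), f x) +
          (∫ x in (((2 : ℕ) : ℝ) / (((2 : ℕ) : ℝ) + 1))..(1 : ℝ), f x) +
          (((2 : ℕ) : ℝ) - 1) / (((2 : ℕ) : ℝ) + 1) * f (1 / 2))) := by
  classical
  set em : ℕ → Bool := fun m => decide (m % 2 = 1) with hem
  set am : ℕ → ℕ := fun m => m / 2 with ham
  have hk : ∀ m : ℕ, 2 * m = 4 * am m + 2 * (em m).toNat := by
    intro m
    rcases Nat.mod_two_eq_zero_or_one m with h | h
    · have e1 : (em m).toNat = 0 := by simp [hem, h]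
      rw [e1]
      simp only [ham]
      omega
    · have e1 : (em m).toNat = 1 := by simp [hem, h]
      rw [e1]
      simp only [ham]
      omega
  have hkr : ∀ m : ℕ, (2 * (m : ℝ)) = 4 * (am m : ℝ) + 2 * ((em m).toNat : ℝ) := by
    intro m
    exact_mod_cast hk m
  -- transport
  have htr : ∀ (k : ℕ) (e : Bool) (a : ℕ), 1 ≤ a → k = 4 * a + 2 * e.toNat →
      P k = (Mmat e a).charpoly ∧ Module.finrank ℂ
          (CuspForm ((CongruenceSubgroup.Gamma0 2 : Subgroup SL(2, ℤ)) :
            Subgroup (GL (Fin 2) ℝ)) (k : ℤ)) = a - 1 := by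
    intro k e a ha hk'
    subst hk'
    exact ⟨MF.P_eq e a ha (T _) (hT _) (P _) (hP _).1 (hP _).2.1 (hP _).2.2,
      (MF.finrank_cusp e a ha).1⟩
  set S : ℕ → Multiset ℝ := fun m =>
    (Ev (em m) (am m)).map (fun x => slo x / ((2 * (m : ℝ)) - 1)) with hS
  have hcard : ∀ m, Multiset.card (S m) = am m - 1 := by
    intro m
    simp only [hS, Multiset.card_map]
    exact card_Ev _ _
  have hD : ∀ m : ℕ, 2 ≤ m → (0 : ℝ) < 2 * (m : ℝ) - 1 := by
    intro m hm
    have : (2 : ℝ) ≤ m := by exact_mod_cast hm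
    linarith
  have ha1 : ∀ m : ℕ, 2 ≤ m → 1 ≤ am m := by
    intro m hm
    simp only [ham]
    omega
  have hat : Filter.Tendsto am Filter.atTop Filter.atTop := by
    refine Filter.tendsto_atTop.2 fun b => ?_
    filter_upwards [Filter.eventually_ge_atTop (2 * b)] with m hm
    simp only [ham]
    omega
  have hN : Filter.Tendsto (fun m => (Multiset.card (S m) : ℝ)) Filter.atTop Filter.atTop := by
    simp only [hcard]
    exact tendsto_natCast_atTop_atTop.comp ((Filter.tendsto_sub_atTop_nat 1).comp hat)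
  have hNa : ∀ m : ℕ, 2 ≤ m → ((am m - 1 : ℕ) : ℝ) = (am m : ℝ) - 1 := by
    intro m hm
    rw [Nat.cast_sub (ha1 m hm), Nat.cast_one]
  -- the count divided by the dimension
  have hcnt : ∀ θ : ℝ, 0 < θ → θ < 1 / 3 → Filter.Tendsto (fun m : ℕ =>
      (cnt (em m) (am m) (θ * (2 * (m : ℝ) - 1)) : ℝ) / (Multiset.card (S m) : ℝ))
      Filter.atTop (nhds θ) := by
    intro θ h0 h1
    obtain ⟨C, hC⟩ := count
    have hlogt : Filter.Tendsto (fun m : ℕ =>
        ((C : ℝ) * (Nat.log 2 (am m) : ℝ) + 2) / (Multiset.card (S m) : ℝ)) Filter.atTop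
        (nhds 0) := by
      have hb : Filter.Tendsto (fun m : ℕ => (C : ℝ) * (2 / Real.log 2) *
          (Real.log (am m : ℝ) / (am m : ℝ)) + 2 / (Multiset.card (S m) : ℝ)) Filter.atTop
          (nhds ((C : ℝ) * (2 / Real.log 2) * 0 + 0)) := by
        refine Filter.Tendsto.add (Filter.Tendsto.const_mul _ ?_) ?_
        · have h2 := Real.isLittleO_log_id_atTop.tendsto_div_nhds_zero
          exact h2.comp (tendsto_natCast_atTop_atTop.comp hat)
        · exact tendsto_const_nhds.div_atTop hN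
      rw [mul_zero, add_zero] at hb
      refine tendsto_of_tendsto_of_tendsto_of_le_of_le' tendsto_const_nhds hb ?_ ?_
      · filter_upwards with m
        positivity
      · filter_upwards [Filter.eventually_ge_atTop 4] with m hm
        have ha2 : 2 ≤ am m := by simp only [ham]; omega
        have ha2r : (2 : ℝ) ≤ am m := by exact_mod_cast ha2
        have hNm : (Multiset.card (S m) : ℝ) = (am m : ℝ) - 1 := by
          rw [hcard, hNa m (by omega)]
        rw [hNm, add_div]
        have hp : (0 : ℝ) < (am m : ℝ) - 1 := by linarith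
        have hl2 : 0 < Real.log 2 := Real.log_pos (by norm_num)
        have hlog : (Nat.log 2 (am m) : ℝ) ≤ Real.log (am m : ℝ) / Real.log 2 := by
          have h3 := Real.natLog_le_logb (am m) 2
          rw [Real.logb] at h3
          exact_mod_cast h3
        have hlp : 0 ≤ Real.log (am m : ℝ) := Real.log_nonneg (by linarith)
        refine add_le_add ?_ le_rfl
        have h4 : (Nat.log 2 (am m) : ℝ) / ((am m : ℝ) - 1) ≤
            (2 / Real.log 2) * (Real.log (am m : ℝ) / (am m : ℝ)) := by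
          rw [div_le_iff₀ hp]
          have h5 : (am m : ℝ) / 2 ≤ (am m : ℝ) - 1 := by linarith
          calc (Nat.log 2 (am m) : ℝ) ≤ Real.log (am m : ℝ) / Real.log 2 := hlog
            _ = (2 / Real.log 2) * (Real.log (am m : ℝ) / (am m : ℝ)) * ((am m : ℝ) / 2) := by
              field_simp
            _ ≤ (2 / Real.log 2) * (Real.log (am m : ℝ) / (am m : ℝ)) * ((am m : ℝ) - 1) := by
              gcongr
        calc (C : ℝ) * (Nat.log 2 (am m) : ℝ) / ((am m : ℝ) - 1)
            = (C : ℝ) * ((Nat.log 2 (am m) : ℝ) / ((am m : ℝ) - 1)) := by ring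
          _ ≤ (C : ℝ) * ((2 / Real.log 2) * (Real.log (am m : ℝ) / (am m : ℝ))) := by
            gcongr
          _ = (C : ℝ) * (2 / Real.log 2) * (Real.log (am m : ℝ) / (am m : ℝ)) := by ring
    rw [tendsto_iff_norm_sub_tendsto_zero]
    refine tendsto_of_tendsto_of_tendsto_of_le_of_le' tendsto_const_nhds hlogt ?_ ?_
    · filter_upwards with m
      exact norm_nonneg _
    · have hsmall : ∀ᶠ m : ℕ in Filter.atTop, 1 ≤ (4 / 3 - 4 * θ) * (am m : ℝ) := by
        have h2 : Filter.Tendsto (fun m : ℕ => (4 / 3 - 4 * θ) * (am m : ℝ)) Filter.atTop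
            Filter.atTop :=
          Filter.Tendsto.const_mul_atTop (by linarith) (tendsto_natCast_atTop_atTop.comp hat)
        exact h2.eventually_ge_atTop 1
      filter_upwards [Filter.eventually_ge_atTop 4, hsmall, hat.eventually_ge_atTop C] with
        m hm hsm hCm
      have ha2 : 2 ≤ am m := by simp only [ham]; omega
      have ha2r : (2 : ℝ) ≤ am m := by exact_mod_cast ha2
      have hNm : (Multiset.card (S m) : ℝ) = (am m : ℝ) - 1 := by
        rw [hcard, hNa m (by omega)]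
      have hp : (0 : ℝ) < (am m : ℝ) - 1 := by linarith
      have he1 : ((em m).toNat : ℝ) ≤ 1 := by
        exact_mod_cast Bool.toNat_le (em m)
      have he0 : (0 : ℝ) ≤ ((em m).toNat : ℝ) := Nat.cast_nonneg _
      have hkm := hkr m
      have hDm := hD m (by omega)
      have h3 := hC (em m) (am m) (θ * (2 * (m : ℝ) - 1)) hCm (by positivity) (by
        rw [hkm]
        nlinarith)
      rw [hNm, Real.norm_eq_abs]
      rw [abs_le] at h3 ⊢
      have e2 : (cnt (em m) (am m) (θ * (2 * (m : ℝ) - 1)) : ℝ) / ((am m : ℝ) - 1) - θ =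
          ((cnt (em m) (am m) (θ * (2 * (m : ℝ) - 1)) : ℝ) - θ * ((am m : ℝ) - 1)) /
            ((am m : ℝ) - 1) := by
        field_simp
      rw [e2, ← neg_div]
      have e3 : θ * (2 * (m : ℝ) - 1) / 4 = θ * ((am m : ℝ) - 1) +
          θ * ((2 * ((em m).toNat : ℝ) + 3) / 4) := by
        rw [hkm]; ring
      have e4 : 0 ≤ θ * ((2 * ((em m).toNat : ℝ) + 3) / 4) := by positivity
      have e5 : θ * ((2 * ((em m).toNat : ℝ) + 3) / 4) ≤ 2 := by nlinarith
      constructor
      · gcongr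
        linarith [h3.1]
      · gcongr
        linarith [h3.2]
  have hfm : ∀ (s : Multiset (PadicAlgCl 2)) (g : PadicAlgCl 2 → ℝ) (p : ℝ → Prop)
      [DecidablePred p] (q : PadicAlgCl 2 → Prop) [DecidablePred q], (∀ x ∈ s, p (g x) ↔ q x) →
      Multiset.card ((s.map g).filter p) = Multiset.card (s.filter q) := by
    intro s g p _ q _ h
    rw [Multiset.filter_map, Multiset.card_map]
    congr 1
    exact Multiset.filter_congr h
  have hlow : ∀ θ : ℝ, 0 < θ → θ < 1 / 3 → Filter.Tendsto (fun m =>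
      (Multiset.card ((S m).filter (fun x => x < θ)) : ℝ) / (Multiset.card (S m) : ℝ))
      Filter.atTop (nhds θ) := by
    intro θ h0 h1
    refine (hcnt θ h0 h1).congr' ?_
    filter_upwards [Filter.eventually_ge_atTop 2] with m hm
    congr 2
    unfold cnt
    simp only [hS]
    refine (hfm _ _ _ _ fun x _ => ?_).symm
    rw [div_lt_iff₀ (hD m hm)]
  have hup : ∀ θ : ℝ, 0 < θ → θ < 1 / 3 → Filter.Tendsto (fun m =>
      (Multiset.card ((S m).filter (fun x => 1 - θ < x)) : ℝ) / (Multiset.card (S m) : ℝ))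
      Filter.atTop (nhds θ) := by
    intro θ h0 h1
    refine (hcnt θ h0 h1).congr' ?_
    filter_upwards [Filter.eventually_ge_atTop 2] with m hm
    congr 2
    have hm2 : (2 : ℝ) ≤ m := by exact_mod_cast hm
    have hkm := hkr m
    rw [← cnt_up (em m) (am m) (ha1 m hm) (θ * (2 * (m : ℝ) - 1)) (by nlinarith)]
    simp only [hS]
    refine (hfm _ _ _ _ fun x _ => ?_).symm
    rw [lt_div_iff₀ (hD m hm)]
    have e1 : (1 - θ) * (2 * (m : ℝ) - 1) =
        4 * (am m : ℝ) + 2 * ((em m).toNat : ℝ) - 1 - θ * (2 * (m : ℝ) - 1) := by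
      linear_combination hkm
    rw [e1]
  have hc : Filter.Tendsto (fun m : ℕ => ((m : ℝ) - 1) / (2 * (m : ℝ) - 1)) Filter.atTop
      (nhds (1 / 2)) := by
    rw [tendsto_iff_norm_sub_tendsto_zero]
    have h1 : Filter.Tendsto (fun m : ℕ => (1 : ℝ) / (m : ℝ)) Filter.atTop (nhds 0) :=
      tendsto_const_nhds.div_atTop tendsto_natCast_atTop_atTop
    refine tendsto_of_tendsto_of_tendsto_of_le_of_le' tendsto_const_nhds h1 ?_ ?_
    · filter_upwards with m
      exact norm_nonneg _
    · filter_upwards [Filter.eventually_ge_atTop 2] with m hm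
      have hDm := hD m hm
      have hm2 : (2 : ℝ) ≤ m := by exact_mod_cast hm
      have hne : (2 * (m : ℝ) - 1) ≠ 0 := hDm.ne'
      have e1 : ((m : ℝ) - 1) / (2 * (m : ℝ) - 1) - 1 / 2 = -(1 / (2 * (2 * (m : ℝ) - 1))) := by
        rw [div_sub_div _ _ hne two_ne_zero, ← neg_div, div_eq_div_iff
          (mul_ne_zero hne two_ne_zero) (mul_ne_zero two_ne_zero hne)]
        ring
      rw [e1, norm_neg, Real.norm_eq_abs, abs_of_pos (by positivity)]
      apply one_div_le_one_div_of_le (by linarith)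
      linarith
  have hmid : ∀ ε : ℝ, 0 < ε → ∀ᶠ m in Filter.atTop,
      (Multiset.card ((S m).filter (fun x => x ≠ ((m : ℝ) - 1) / (2 * (m : ℝ) - 1))) : ℝ) ≤
        (2 / 3 + ε) * (Multiset.card (S m) : ℝ) := by
    intro ε hε
    have h2 : Filter.Tendsto (fun m : ℕ => ε * (Multiset.card (S m) : ℝ)) Filter.atTop
        Filter.atTop := Filter.Tendsto.const_mul_atTop hε hN
    filter_upwards [Filter.eventually_ge_atTop 2, h2.eventually_ge_atTop 1] with m hm h3
    have hDm := hD m hm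
    have hkm := hkr m
    have e1 : Multiset.card ((S m).filter (fun x => x ≠ ((m : ℝ) - 1) / (2 * (m : ℝ) - 1))) =
        Multiset.card ((Ev (em m) (am m)).filter
          (fun x => slo x ≠ 2 * (am m : ℝ) + ((em m).toNat : ℝ) - 1)) := by
      simp only [hS]
      refine hfm _ _ _ _ fun x _ => ?_
      rw [not_iff_not, div_left_inj' hDm.ne']
      have e2 : (m : ℝ) - 1 = 2 * (am m : ℝ) + ((em m).toNat : ℝ) - 1 := by linarith
      rw [e2]
    rw [e1]
    have h4 := mid (em m) (am m) (ha1 m hm)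
    have h5 : (3 * dd (em m) (am m) : ℕ) ≤ am m := by
      unfold dd
      cases em m
      · simp only [cond_false]; omega
      · simp only [cond_true]; omega
    have h4r : (Multiset.card ((Ev (em m) (am m)).filter
          (fun x => slo x ≠ 2 * (am m : ℝ) + ((em m).toNat : ℝ) - 1)) : ℝ) ≤
        2 * (dd (em m) (am m) : ℝ) := by exact_mod_cast h4
    have h5r : 3 * (dd (em m) (am m) : ℝ) ≤ am m := by exact_mod_cast h5
    have hNm : (Multiset.card (S m) : ℝ) = (am m : ℝ) - 1 := by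
      rw [hcard, hNa m hm]
    rw [hNm] at h3 ⊢
    nlinarith
  have hmain := weak S (fun m : ℕ => ((m : ℝ) - 1) / (2 * (m : ℝ) - 1)) hN hlow hup hc hmid f
  have e2 : (((2 : ℕ) : ℝ)) = 2 := by norm_num
  have e3 : (1 : ℝ) / (2 + 1) = 1 / 3 := by norm_num
  have e4 : (2 : ℝ) / (2 + 1) = 2 / 3 := by norm_num
  have e5 : ((2 : ℝ) - 1) / (2 + 1) = 1 / 3 := by norm_num
  rw [e2, e3, e4, e5]
  refine hmain.congr' ?_
  filter_upwards [Filter.eventually_ge_atTop 2] with m hm
  obtain ⟨h1, h2⟩ := htr (2 * m) (em m) (am m) (ha1 m hm) (hk m)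
  rw [h1, h2, hcard]
  congr 2
  simp only [hS, Multiset.map_map]
  rfl

end Pool.Agent.GV
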