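import Pool.Agent.GV.VAL.Exists

/-!
# GV: the interface to the part VAL: existence of good `n` in short intervals
-/

namespace Pool.Agent.GV

theorem val_exists : ∃ C : ℕ, ∀ (e : Bool) (a n0 : ℕ), C ≤ a → C * Nat.log 2 a ≤ n0 →
    3 * n0 + C * Nat.log 2 a ≤ a →
    ∃ (n : ℕ) (τ : ℤ), n0 ≤ n ∧ n ≤ n0 + C * Nat.log 2 a ∧
      |τ - 4 * (n : ℤ)| ≤ (C : ℤ) * Nat.log 2 a ∧ Good e a n τ :=
  val_exists'

end Pool.Agent.GV
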